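import Pool.Agent.helper62.DP8.Spec

set_option autoImplicit false

namespace Pool.Agent.helper62.DP8

theorem CYC_nacyc {V : Type} [Fintype V] [Nonempty V] (G : SimpleGraph V) (hG : Cub G) : ¬ G.IsAcyclic := by
  intro h
  obtain ⟨u, v, p, hp, hmax⟩ := SimpleGraph.Walk.exists_isPath_forall_isPath_length_le_length G
  have hsub : G.neighborSet u ⊆ {p.snd} := by
    intro w hadj
    rw [SimpleGraph.mem_neighborSet] at hadj
    rw [Set.mem_singleton_iff]
    apply h.eq_snd_of_adj_start hp hadj
    by_contra hw
    have h1 : (p.cons hadj.symm).IsPath := hp.cons hw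
    have h2 := hmax _ _ _ h1
    rw [SimpleGraph.Walk.length_cons] at h2
    omega
  have h3 := Set.ncard_le_ncard hsub (Set.finite_singleton _)
  rw [Set.ncard_singleton] at h3
  have h4 := hG u
  omega

theorem CYC : CYC_stmt := by
  intro V _ _ G hG
  have hna := CYC_nacyc G hG
  obtain ⟨a, c, hc, hlen⟩ := SimpleGraph.exists_girth_eq_length.mpr hna
  have h3 : 3 ≤ c.length := hc.three_le_length
  have hg0 : 0 < c.length := by omega
  refine ⟨c.length, fun i => c.getVert (i % c.length), h3, ?_, ?_, ?_, ?_⟩
  · intro x d hd
    rw [← hlen]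
    exact SimpleGraph.girth_le_length hd
  · intro i
    simp only [Nat.add_mod_right]
  · intro i hi j hj hij
    simp only [Nat.mod_eq_of_lt hi, Nat.mod_eq_of_lt hj] at hij
    exact hc.getVert_injOn' (by simp only [Set.mem_ofPred_eq]; omega) (by simp only [Set.mem_ofPred_eq]; omega) hij
  · intro i
    have hi : i % c.length < c.length := Nat.mod_lt _ hg0
    rcases Nat.lt_or_ge (i % c.length + 1) c.length with h | h
    · have h1 : (i + 1) % c.length = i % c.length + 1 := by
        rw [Nat.add_mod, Nat.mod_eq_of_lt (show 1 < c.length by omega), Nat.mod_eq_of_lt h]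
      rw [h1]
      exact c.adj_getVert_succ hi
    · have h0 : i % c.length + 1 = c.length := by omega
      have h1 : (i + 1) % c.length = 0 := by
        rw [Nat.add_mod, Nat.mod_eq_of_lt (show 1 < c.length by omega), h0, Nat.mod_self]
      have h2 := c.adj_getVert_succ hi
      rw [h0, SimpleGraph.Walk.getVert_length] at h2
      rw [h1, SimpleGraph.Walk.getVert_zero]
      exact h2

end Pool.Agent.helper62.DP8
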